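import Pool.Agent.X159.CoxY

/-!
# The dimension of the poset of non-empty convex subcomplexes of a finite Coxeter complex

Positive answer to Q1. A finite Coxeter system `(W, S)`, `S ≠ ∅`, is realised as a finite
reflection group on a Euclidean space `V` of dimension `|S|` without nonzero fixed vectors; its
Coxeter complex is the unit sphere subdivided by the reflecting hyperplanes, the roots are the
closed half-spheres bounded by them, and the convex subcomplexes are the intersections of roots.

Upper bound: for a convex subcomplex `C` let `φ(C)` be the number of walls cutting `C` properly plus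
the dimension of the intersection of the walls containing `C`; this is strictly monotone, at least
`1` and at most `N + dim V`. Lower bound: a generic line through a chamber gives a chain of `N + 1`
convex subcomplexes from the chamber to the whole complex, and a flag of faces of a suitable chamber
has `dim V` elements. (The proof works for all essential central hyperplane arrangements,
see `Pool.Agent.X159.CoxY.krullDim_eq`.)
-/

set_option autoImplicit false

namespace Pool.Agent.Results.MP_70010f_co.DimConvexSub

open Pool.Agent.X159.CoxY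

variable {V : Type*} [NormedAddCommGroup V] [InnerProductSpace ℝ V]

/-- `g` is the orthogonal reflection in a hyperplane. -/
def IsRefl (g : V ≃ₗᵢ[ℝ] V) : Prop :=
  ∃ v : V, v ≠ 0 ∧ g = (Submodule.span ℝ {v})ᗮ.reflection

/-- The nonzero vectors `v` for which the reflection in the hyperplane orthogonal to `v` is in
`W`. The roots (half-apartments) of the Coxeter complex of `W` are the sets of unit vectors `x` with
`⟪v, x⟫ ≥ 0` for such `v`. -/
def rootVecs (W : Subgroup (V ≃ₗᵢ[ℝ] V)) : Set V :=
  {v | v ≠ 0 ∧ (Submodule.span ℝ {v})ᗮ.reflection ∈ W}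

lemma mem_span_of_refl {u v : V} (h : (Submodule.span ℝ {v})ᗮ.reflection =
    (Submodule.span ℝ {u})ᗮ.reflection) : v ∈ Submodule.span ℝ {u} := by
  have h1 : (Submodule.span ℝ {v})ᗮ.reflection v = -v :=
    Submodule.reflection_orthogonalComplement_singleton_eq_neg v
  rw [h, Submodule.reflection_orthogonal_apply, neg_inj] at h1
  exact (Submodule.reflection_eq_self_iff v).1 h1

lemma refl_smul {u : V} {c : ℝ} (hc : c ≠ 0) : (Submodule.span ℝ {c • u})ᗮ.reflection =
    (Submodule.span ℝ {u})ᗮ.reflection := by
  have h : Submodule.span ℝ {c • u} = Submodule.span ℝ {u} :=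
    Submodule.span_singleton_smul_eq (IsUnit.mk0 c hc) u
  congr 1
  simp only [h]

/-- Let `W` be a finite group generated by reflections of a Euclidean space `V ≠ 0`, without
nonzero fixed vectors, and `N` the number of reflections in `W`. The poset of non-empty convex
subcomplexes of its Coxeter complex (the unit sphere of `V`, of dimension `dim V - 1`) has
dimension `(dim V - 1) + N`. -/
theorem result {V : Type*} [NormedAddCommGroup V] [InnerProductSpace ℝ V]
    [FiniteDimensional ℝ V] [Nontrivial V] (W : Subgroup (V ≃ₗᵢ[ℝ] V)) [Finite W]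
    (hgen : Subgroup.closure {g | g ∈ W ∧ IsRefl g} = W)
    (hess : ∀ x : V, (∀ g ∈ W, g x = x) → x = 0) :
    Order.krullDim (ConvexSub (rootVecs W)) =
      ((Module.finrank ℝ V - 1 + Nat.card {g : V ≃ₗᵢ[ℝ] V // g ∈ W ∧ IsRefl g} : ℕ) :
        WithBot ℕ∞) := by
  classical
  haveI : Finite {g : V ≃ₗᵢ[ℝ] V // g ∈ W ∧ IsRefl g} :=
    Finite.of_injective (fun g => (⟨g.1, g.2.1⟩ : W)) (fun g h hgh => by
      have := congrArg Subtype.val hgh
      exact Subtype.ext this)
  letI : Fintype {g : V ≃ₗᵢ[ℝ] V // g ∈ W ∧ IsRefl g} := Fintype.ofFinite _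
  choose a ha ha' using fun g : {g : V ≃ₗᵢ[ℝ] V // g ∈ W ∧ IsRefl g} => g.2.2
  rw [Nat.card_eq_fintype_card]
  refine krullDim_eq (a := a) ?_ ha ?_ ?_
  · ext v
    constructor
    · rintro ⟨hv, hvW⟩
      let g : {g : V ≃ₗᵢ[ℝ] V // g ∈ W ∧ IsRefl g} := ⟨_, hvW, v, hv, rfl⟩
      have h1 := mem_span_of_refl (ha' g)
      obtain ⟨c, hc⟩ := Submodule.mem_span_singleton.1 h1
      refine ⟨g, c, ?_, hc.symm⟩
      rintro rfl
      rw [zero_smul] at hc
      exact hv hc.symm
    · rintro ⟨g, c, hc, rfl⟩
      refine ⟨smul_ne_zero hc (ha g), ?_⟩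
      rw [refl_smul hc, ← ha' g]
      exact g.2.1
  · intro x hx
    apply hess
    have h1 : ∀ g : {g : V ≃ₗᵢ[ℝ] V // g ∈ W ∧ IsRefl g}, g.1 x = x := by
      intro g
      rw [ha' g]
      refine Submodule.reflection_mem_subspace_eq_self ?_
      rw [Submodule.mem_orthogonal_singleton_iff_inner_right]
      exact hx g
    intro g hg
    rw [← hgen] at hg
    induction hg using Subgroup.closure_induction with
    | mem g hg => exact h1 ⟨g, hg⟩
    | one => rfl
    | mul g h _ _ ihg ihh =>
      show g (h x) = x
      rw [ihh, ihg]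
    | inv g _ ih =>
      show g.symm x = x
      rw [LinearIsometryEquiv.symm_apply_eq, ih]
  · intro g h hgh c hc
    apply hgh
    have hc0 : c ≠ 0 := by
      rintro rfl
      rw [zero_smul] at hc
      exact ha g hc
    apply Subtype.ext
    rw [ha' g, ha' h]
    have h2 : (Submodule.span ℝ {a g})ᗮ.reflection = (Submodule.span ℝ {c • a h})ᗮ.reflection := by
      congr 1
      simp only [hc]
    rw [h2, refl_smul hc0]

end Pool.Agent.Results.MP_70010f_co.DimConvexSub
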